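import Mathlib

/-!
Covering dimension of subsets of a topological space, in the form used by the frozen statement.
-/

set_option autoImplicit false

open Set

namespace Pool.Agent.Helper88

/-- `DimLE S k`: every finite open cover of `S` has a finite open refinement of order at most `k`
(on `S`). -/
def DimLE {X : Type*} [TopologicalSpace X] (S : Set X) (k : ℤ) : Prop :=
  ∀ 𝒰 : Finset (Set X),
    (∀ U ∈ 𝒰, IsOpen U) →
    S ⊆ ⋃₀ (↑𝒰 : Set (Set X)) →
    ∃ 𝒱 : Finset (Set X),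
      (∀ V ∈ 𝒱, IsOpen V) ∧
      S ⊆ ⋃₀ (↑𝒱 : Set (Set X)) ∧
      (∀ V ∈ 𝒱, ∃ U ∈ 𝒰, V ∩ S ⊆ U) ∧
      (∀ 𝒲 ⊆ 𝒱, (𝒲.card : ℤ) = k + 2 →
        S ∩ ⋂₀ (↑𝒲 : Set (Set X)) = ∅)

/-- Covering dimension is a topological invariant of the subspace. -/
theorem DimLE.range_of_isEmbedding {X Y : Type*} [TopologicalSpace X] [TopologicalSpace Y]
    {e : X → Y} (he : Topology.IsEmbedding e) {k : ℤ} (h : DimLE (univ : Set X) k) :
    DimLE (range e) k := by
  classical
  intro 𝒰 hU hcov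
  obtain ⟨𝒱, hV, hVcov, hVref, hVord⟩ := h (𝒰.image fun U => e ⁻¹' U)
    (by
      intro U hU'
      obtain ⟨U0, hU0, rfl⟩ := Finset.mem_image.1 hU'
      exact (hU U0 hU0).preimage he.continuous)
    (by
      intro x _
      obtain ⟨U, hU', hxU⟩ := hcov (mem_range_self x)
      exact ⟨e ⁻¹' U, by
        rw [Finset.mem_coe]
        exact Finset.mem_image.2 ⟨U, hU', rfl⟩, hxU⟩)
  have hex : ∀ V : Set X, ∃ V' : Set Y, IsOpen V → (IsOpen V' ∧ e ⁻¹' V' = V) := by
    intro V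
    by_cases hVo : IsOpen V
    · obtain ⟨V', hV', hVV'⟩ := he.isInducing.isOpen_iff.1 hVo
      exact ⟨V', fun _ => ⟨hV', hVV'⟩⟩
    · exact ⟨∅, fun h' => absurd h' hVo⟩
  choose f hf using hex
  refine ⟨𝒱.image f, ?_, ?_, ?_, ?_⟩
  · intro V' hV'
    obtain ⟨V, hV0, rfl⟩ := Finset.mem_image.1 hV'
    exact (hf V (hV V hV0)).1
  · rintro _ ⟨x, rfl⟩
    obtain ⟨V, hV0, hxV⟩ := hVcov (mem_univ x)
    refine ⟨f V, ?_, ?_⟩
    · rw [Finset.mem_coe]
      exact Finset.mem_image.2 ⟨V, hV0, rfl⟩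
    · have := (hf V (hV V hV0)).2
      rw [← this] at hxV
      exact hxV
  · intro V' hV'
    obtain ⟨V, hV0, rfl⟩ := Finset.mem_image.1 hV'
    obtain ⟨U, hU0, hVU⟩ := hVref V hV0
    obtain ⟨U0, hU00, rfl⟩ := Finset.mem_image.1 hU0
    refine ⟨U0, hU00, ?_⟩
    rintro _ ⟨hxV, x, rfl⟩
    apply hVU
    refine ⟨?_, mem_univ x⟩
    have := (hf V (hV V hV0)).2
    rw [← this]
    exact hxV
  · intro 𝒲 hW hcard
    have key := hVord (𝒲.image fun V' => e ⁻¹' V') ?_ ?_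
    · rw [eq_empty_iff_forall_notMem]
      rintro _ ⟨⟨x, rfl⟩, hx⟩
      rw [eq_empty_iff_forall_notMem] at key
      apply key x
      refine ⟨mem_univ x, ?_⟩
      rw [mem_sInter] at hx ⊢
      intro V hV'
      rw [Finset.mem_coe] at hV'
      obtain ⟨V0, hV0, rfl⟩ := Finset.mem_image.1 hV'
      exact hx V0 hV0
    · intro V hV'
      obtain ⟨V0, hV0, rfl⟩ := Finset.mem_image.1 hV'
      obtain ⟨V1, hV1, rfl⟩ := Finset.mem_image.1 (hW hV0)
      rw [(hf V1 (hV V1 hV1)).2]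
      exact hV1
    · rw [Finset.card_image_of_injOn, hcard]
      intro V0 hV0 V1 hV1 heq
      obtain ⟨V2, hV2, rfl⟩ := Finset.mem_image.1 (hW hV0)
      obtain ⟨V3, hV3, rfl⟩ := Finset.mem_image.1 (hW hV1)
      simp only [(hf V2 (hV V2 hV2)).2, (hf V3 (hV V3 hV3)).2] at heq
      rw [heq]

/-- A finite open cover of a subset with a countable base of relatively clopen open sets has a
disjoint open refinement. -/
theorem exists_disjoint_refinement {X : Type*} [TopologicalSpace X] (S : Set X)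
    (G : ℕ → Set X) (hGo : ∀ n, IsOpen (G n)) (hGc : ∀ n, closure (G n) ∩ S ⊆ G n)
    (hGb : ∀ x ∈ S, ∀ U : Set X, IsOpen U → x ∈ U → ∃ n, x ∈ G n ∧ G n ⊆ U)
    (𝒰 : Finset (Set X)) (hU : ∀ U ∈ 𝒰, IsOpen U)
    (hcov : S ⊆ ⋃₀ (↑𝒰 : Set (Set X))) :
    ∃ F : Set X → Set X, (∀ U, IsOpen (F U)) ∧ (∀ U, F U ⊆ U) ∧
      (∀ U U', U ≠ U' → Disjoint (F U) (F U')) ∧ S ⊆ ⋃ U ∈ 𝒰, F U := by
  classical
  -- `N` is the set of useful indices
  let N : Set ℕ := {n | ∃ U ∈ 𝒰, G n ⊆ U}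
  have hex : ∀ n, ∃ U : Set X, n ∈ N → (U ∈ 𝒰 ∧ G n ⊆ U) := by
    intro n
    by_cases hn : n ∈ N
    · obtain ⟨U, hU0, hU1⟩ := hn
      exact ⟨U, fun _ => ⟨hU0, hU1⟩⟩
    · exact ⟨∅, fun h' => absurd h' hn⟩
  choose u hu using hex
  let H : ℕ → Set X := fun n => G n \ ⋃ m ∈ Finset.range n, (if m ∈ N then closure (G m) else ∅)
  have hHo : ∀ n, IsOpen (H n) := by
    intro n
    apply (hGo n).sdiff
    apply isClosed_biUnion_finset
    intro m _
    split_ifs
    · exact isClosed_closure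
    · exact isClosed_empty
  have hHd : ∀ m n, m ∈ N → m < n → Disjoint (H m) (H n) := by
    intro m n hm hmn
    rw [Set.disjoint_left]
    rintro x ⟨hx1, -⟩ ⟨-, hx2⟩
    apply hx2
    rw [mem_iUnion₂]
    refine ⟨m, Finset.mem_range.2 hmn, ?_⟩
    rw [if_pos hm]
    exact subset_closure hx1
  refine ⟨fun U => ⋃ n ∈ {n | n ∈ N ∧ u n = U}, H n, ?_, ?_, ?_, ?_⟩
  · intro U
    exact isOpen_biUnion fun n _ => hHo n
  · intro U x hx
    rw [mem_iUnion₂] at hx
    obtain ⟨n, ⟨hn, rfl⟩, hx⟩ := hx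
    exact (hu n hn).2 hx.1
  · intro U U' hne
    rw [Set.disjoint_left]
    intro x hx hx'
    simp only [mem_iUnion, mem_ofPred_eq, exists_prop] at hx hx'
    obtain ⟨n, ⟨hn, hnU⟩, hxn⟩ := hx
    obtain ⟨m, ⟨hm, hmU⟩, hxm⟩ := hx'
    have hnm : n ≠ m := by
      rintro rfl
      exact hne (hnU.symm.trans hmU)
    rcases lt_or_gt_of_ne hnm with h | h
    · exact Set.disjoint_left.1 (hHd n m hn h) hxn hxm
    · exact Set.disjoint_left.1 (hHd m n hm h) hxm hxn
  · intro x hx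
    have hexn : ∃ n, n ∈ N ∧ x ∈ G n := by
      obtain ⟨U, hU0, hxU⟩ := hcov hx
      obtain ⟨n, hn1, hn2⟩ := hGb x hx U (hU U hU0) hxU
      exact ⟨n, ⟨U, hU0, hn2⟩, hn1⟩
    let n := Nat.find hexn
    have hn : n ∈ N ∧ x ∈ G n := Nat.find_spec hexn
    rw [mem_iUnion₂]
    refine ⟨u n, (hu n hn.1).1, ?_⟩
    rw [mem_iUnion₂]
    refine ⟨n, ⟨hn.1, rfl⟩, hn.2, ?_⟩
    intro hxx
    rw [mem_iUnion₂] at hxx
    obtain ⟨m, hm, hxm⟩ := hxx
    rw [Finset.mem_range] at hm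
    split_ifs at hxm with hmN
    · exact Nat.find_min hexn hm ⟨hmN, hGc m ⟨hxm, hx⟩⟩
    · exact hxm

/-- A space which is the union of two subsets with such bases has covering dimension at most one. -/
theorem dimLE_one_of_two {X : Type*} [TopologicalSpace X] (S : Bool → Set X)
    (hS : ∀ x, ∃ b, x ∈ S b) (G : Bool → ℕ → Set X) (hGo : ∀ b n, IsOpen (G b n))
    (hGc : ∀ b n, closure (G b n) ∩ S b ⊆ G b n)
    (hGb : ∀ b, ∀ x ∈ S b, ∀ U : Set X, IsOpen U → x ∈ U → ∃ n, x ∈ G b n ∧ G b n ⊆ U) :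
    DimLE (univ : Set X) 1 := by
  classical
  intro 𝒰 hU hcov
  have h1 : ∀ b, ∃ F : Set X → Set X, (∀ U, IsOpen (F U)) ∧ (∀ U, F U ⊆ U) ∧
      (∀ U U', U ≠ U' → Disjoint (F U) (F U')) ∧ S b ⊆ ⋃ U ∈ 𝒰, F U := fun b =>
    exists_disjoint_refinement (S b) (G b) (hGo b) (hGc b) (hGb b) 𝒰 hU
      ((subset_univ _).trans hcov)
  choose F hFo hFs hFd hFc using h1
  refine ⟨(Finset.univ ×ˢ 𝒰).image fun p : Bool × Set X => F p.1 p.2, ?_, ?_, ?_, ?_⟩
  · intro V hV
    obtain ⟨p, -, rfl⟩ := Finset.mem_image.1 hV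
    exact hFo _ _
  · intro x _
    obtain ⟨b, hb⟩ := hS x
    have := hFc b hb
    rw [mem_iUnion₂] at this
    obtain ⟨U, hU0, hxU⟩ := this
    refine ⟨F b U, ?_, hxU⟩
    rw [Finset.mem_coe]
    exact Finset.mem_image.2 ⟨(b, U), by simp [hU0], rfl⟩
  · intro V hV
    obtain ⟨p, hp, rfl⟩ := Finset.mem_image.1 hV
    refine ⟨p.2, ?_, inter_subset_left.trans (hFs _ _)⟩
    simpa using (Finset.mem_product.1 hp).2
  · intro 𝒲 hW hcard
    have hcard' : 2 < 𝒲.card := by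
      have : (𝒲.card : ℤ) = 3 := by rw [hcard]; norm_num
      omega
    -- assign to every member of `𝒲` a colour
    have hcol : ∀ V ∈ 𝒲, ∃ p : Bool × Set X, V = F p.1 p.2 := by
      intro V hV
      obtain ⟨p, -, hp⟩ := Finset.mem_image.1 (hW hV)
      exact ⟨p, hp.symm⟩
    choose! c hc using hcol
    obtain ⟨V, hV, V', hV', hne, heq⟩ :=
      Finset.exists_ne_map_eq_of_card_lt_of_maps_to
        (s := 𝒲) (t := (Finset.univ : Finset Bool)) (f := fun V => (c V).1)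
        (by simpa using hcard') (fun _ _ => Finset.mem_univ _)
    rw [eq_empty_iff_forall_notMem]
    rintro x ⟨-, hx⟩
    rw [mem_sInter] at hx
    have hx1 := hx V hV
    have hx2 := hx V' hV'
    rw [hc V hV] at hx1
    rw [hc V' hV', ← heq] at hx2
    have hne' : (c V).2 ≠ (c V').2 := by
      intro h2
      apply hne
      rw [hc V hV, hc V' hV', ← heq, h2]
    exact Set.disjoint_left.1 (hFd (c V).1 _ _ hne') hx1 hx2

/-- A set containing a preconnected subset with two points has positive covering dimension. -/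
theorem not_dimLE_zero {X : Type*} [TopologicalSpace X] [T1Space X] (A C : Set X) (hCA : C ⊆ A)
    (hC : IsPreconnected C) (x y : X) (hx : x ∈ C) (hy : y ∈ C) (hxy : x ≠ y) :
    ¬ DimLE A 0 := by
  classical
  intro h
  obtain ⟨𝒱, hV, hcov, href, hord⟩ := h {{x}ᶜ, {y}ᶜ}
    (by
      intro U hU
      simp only [Finset.mem_insert, Finset.mem_singleton] at hU
      rcases hU with rfl | rfl
      · exact isOpen_compl_singleton
      · exact isOpen_compl_singleton)
    (by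
      intro z _
      by_cases hz : z = x
      · exact ⟨{y}ᶜ, by simp, by rw [hz]; exact hxy⟩
      · exact ⟨{x}ᶜ, by simp, hz⟩)
  obtain ⟨V, hV0, hxV⟩ := hcov (hCA hx)
  rw [Finset.mem_coe] at hV0
  -- `V` is relatively clopen in `A`
  let O : Set X := ⋃₀ (↑(𝒱.erase V) : Set (Set X))
  have hO : IsOpen O := isOpen_sUnion fun W hW => hV W (Finset.mem_of_mem_erase hW)
  have hdis : ∀ z ∈ A, z ∈ V → z ∈ O → False := by
    intro z hzA hzV ⟨W, hW, hzW⟩
    rw [Finset.mem_coe, Finset.mem_erase] at hW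
    have := hord {V, W} (by
      intro T hT
      simp only [Finset.mem_insert, Finset.mem_singleton] at hT
      rcases hT with rfl | rfl
      · exact hV0
      · exact hW.2) (by
      rw [Finset.card_pair hW.1.symm]
      norm_num)
    rw [eq_empty_iff_forall_notMem] at this
    apply this z
    refine ⟨hzA, ?_⟩
    rw [mem_sInter]
    intro T hT
    simp only [Finset.coe_insert, Finset.coe_singleton, mem_insert_iff, mem_singleton_iff] at hT
    rcases hT with rfl | rfl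
    · exact hzV
    · exact hzW
  have hyV : y ∉ V := by
    intro hyV
    obtain ⟨U, hU0, hVU⟩ := href V hV0
    simp only [Finset.mem_insert, Finset.mem_singleton] at hU0
    rcases hU0 with rfl | rfl
    · exact hVU ⟨hxV, hCA hx⟩ rfl
    · exact hVU ⟨hyV, hCA hy⟩ rfl
  have hyO : y ∈ O := by
    obtain ⟨W, hW0, hyW⟩ := hcov (hCA hy)
    refine ⟨W, ?_, hyW⟩
    rw [Finset.mem_coe, Finset.mem_erase]
    refine ⟨?_, hW0⟩
    rintro rfl
    exact hyV hyW
  obtain ⟨z, hzC, hzV, hzO⟩ := hC V O (hV V hV0) hO (by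
    intro z hz
    obtain ⟨W, hW0, hzW⟩ := hcov (hCA hz)
    by_cases hWV : W = V
    · left
      rw [← hWV]
      exact hzW
    · right
      exact ⟨W, by rw [Finset.mem_coe, Finset.mem_erase]; exact ⟨hWV, hW0⟩, hzW⟩)
    ⟨x, hx, hxV⟩ ⟨y, hy, hyO⟩
  exact hdis z (hCA hzC) hzV hzO

/-- Only the empty set has dimension `-1`. -/
theorem not_dimLE_neg_one {X : Type*} [TopologicalSpace X] (A : Set X) (x : X) (hx : x ∈ A) :
    ¬ DimLE A (-1) := by
  classical
  intro h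
  obtain ⟨𝒱, hV, hcov, href, hord⟩ := h {univ} (by
    intro U hU
    rw [Finset.mem_singleton] at hU
    rw [hU]
    exact isOpen_univ) (by simp)
  obtain ⟨V, hV0, hxV⟩ := hcov hx
  have := hord {V} (by simpa using hV0) (by simp)
  rw [eq_empty_iff_forall_notMem] at this
  apply this x
  refine ⟨hx, ?_⟩
  simpa using hxV

/-- Three distinct members of a finite family of open sets of order at most one on `B` have no
common point in `B`; the version for the canonical enlargements of the members. -/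
theorem infEDist_triple {X : Type*} [PseudoEMetricSpace X] (B V₁ V₂ V₃ : Set X) (x : X)
    (h₁ : Metric.infEDist x B < Metric.infEDist x (B \ V₁))
    (h₂ : Metric.infEDist x B < Metric.infEDist x (B \ V₂))
    (h₃ : Metric.infEDist x B < Metric.infEDist x (B \ V₃)) :
    (B ∩ (V₁ ∩ (V₂ ∩ V₃))).Nonempty := by
  have h : Metric.infEDist x B < min (Metric.infEDist x (B \ V₁))
      (min (Metric.infEDist x (B \ V₂)) (Metric.infEDist x (B \ V₃))) :=
    lt_min h₁ (lt_min h₂ h₃)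
  obtain ⟨y, hyB, hy⟩ := Metric.infEDist_lt_iff.1 h
  rw [lt_min_iff, lt_min_iff] at hy
  refine ⟨y, hyB, ?_, ?_, ?_⟩
  · by_contra hcon
    have hm : y ∈ B \ V₁ := ⟨hyB, hcon⟩
    exact absurd (Metric.infEDist_le_edist_of_mem (x := x) hm) (not_le.2 hy.1)
  · by_contra hcon
    have hm : y ∈ B \ V₂ := ⟨hyB, hcon⟩
    exact absurd (Metric.infEDist_le_edist_of_mem (x := x) hm) (not_le.2 hy.2.1)
  · by_contra hcon
    have hm : y ∈ B \ V₃ := ⟨hyB, hcon⟩
    exact absurd (Metric.infEDist_le_edist_of_mem (x := x) hm) (not_le.2 hy.2.2)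

end Pool.Agent.Helper88
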