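import Mathlib

/-!
A continuous self-map of a closed disc which moves points by less than half the radius
hits every point near the centre (a weak planar form of Brouwer's theorem), proved by
lifting through the covering map `exp`.
-/

set_option autoImplicit false

open Set Metric

namespace Pool.Agent.Helper88

/-- Continuous integer-valued (in the complex exponential sense) functions are constant. -/
lemma exp_eq_one_const (k : ℝ → ℂ) (hk : Continuous k) (h1 : ∀ t, Complex.exp (k t) = 1)
    (a b : ℝ) : k a = k b := by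
  have hpi : (0:ℝ) < 2 * Real.pi := by positivity
  have hint : ∀ t, ∃ n : ℤ, k t = n * (2 * Real.pi * Complex.I) := fun t => by
    have := h1 t
    rwa [Complex.exp_eq_one_iff] at this
  choose n hn using hint
  have hcont : Continuous (fun t => (k t).im / (2 * Real.pi)) := by fun_prop
  have hval : ∀ t, (k t).im / (2 * Real.pi) = n t := by
    intro t
    rw [hn t]
    simp
  have hn' : Continuous n := by
    have h2 : Continuous (fun t => ((n t : ℤ) : ℝ)) := by
      simpa [hval] using hcont
    exact (Int.isClosedEmbedding_coe_real.isEmbedding.continuous_iff).2 h2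
  have : n a = n b := by
    exact PreconnectedSpace.constant inferInstance hn'
  rw [hn a, hn b, this]

/-- Radial projection of the plane onto the closed disc. -/
lemma exists_retraction (z0 : ℂ) (r : ℝ) (hr : 0 < r) :
    ∃ f : ℂ → ℂ, Continuous f ∧ (∀ z, f z ∈ closedBall z0 r) ∧ ∀ z ∈ closedBall z0 r, f z = z := by
  refine ⟨fun z => z0 + ((max 1 (‖z - z0‖ / r) : ℝ)⁻¹ : ℝ) • (z - z0), ?_, ?_, ?_⟩
  · have : ∀ z : ℂ, max 1 (‖z - z0‖ / r) ≠ 0 := fun z =>
      ne_of_gt (lt_of_lt_of_le one_pos (le_max_left _ _))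
    have hc : Continuous (fun z : ℂ => (max 1 (‖z - z0‖ / r) : ℝ)⁻¹) := by
      apply Continuous.inv₀ (by fun_prop) this
    fun_prop
  · intro z
    rw [mem_closedBall, dist_eq_norm]
    have hpos : 0 < max 1 (‖z - z0‖ / r) := lt_of_lt_of_le one_pos (le_max_left _ _)
    rw [add_sub_cancel_left, norm_smul, Real.norm_eq_abs, abs_of_pos (inv_pos.2 hpos),
      inv_mul_le_iff₀ hpos]
    have := le_max_right 1 (‖z - z0‖ / r)
    rw [div_le_iff₀ hr] at this
    exact this
  · intro z hz
    rw [mem_closedBall, dist_eq_norm] at hz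
    have : ‖z - z0‖ / r ≤ 1 := by rwa [div_le_one hr]
    simp [max_eq_left this]

/-- A continuous map from the closed disc of radius `r` moving points by less than `r/4`
takes every value in the ball of radius `r/4`. -/
theorem small_move_surj (z0 : ℂ) (r : ℝ) (hr : 0 < r) (g : ℂ → ℂ)
    (hg : ContinuousOn g (closedBall z0 r)) (hsmall : ∀ z ∈ closedBall z0 r, ‖g z - z‖ < r / 4)
    (w : ℂ) (hw : ‖w - z0‖ < r / 4) : ∃ z ∈ closedBall z0 r, g z = w := by
  by_contra hcon
  push Not at hcon
  obtain ⟨f, hf, hfm, hfid⟩ := exists_retraction z0 r hr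
  have hgf : Continuous (fun z => g (f z)) := hg.comp_continuous hf hfm
  let F : C(ℂ, {z : ℂ // z ≠ 0}) :=
    ⟨fun z => ⟨g (f z) - w, sub_ne_zero.2 (hcon _ (hfm z))⟩,
      (hgf.sub continuous_const).subtype_mk _⟩
  have hexp : ∃ e0 : ℂ, (⟨_, e0.exp_ne_zero⟩ : {z : ℂ // z ≠ 0}) = F 0 :=
    ⟨Complex.log (F 0), Subtype.ext (Complex.exp_log (F 0).2)⟩
  obtain ⟨e0, he0⟩ := hexp
  obtain ⟨h, ⟨-, hh⟩, -⟩ :=
    Complex.isCoveringMap_exp.existsUnique_continuousMap_lifts F 0 e0 he0
  have hh' : ∀ z, Complex.exp (h z) = g (f z) - w := by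
    intro z
    have := congrFun hh z
    simpa [F, Subtype.ext_iff] using this
  -- the circle
  let c : ℝ → ℂ := fun t => z0 + r * Complex.exp (t * Complex.I)
  have hc : Continuous c := by fun_prop
  have hcn : ∀ t, ‖c t - z0‖ = r := by
    intro t
    simp [c, Complex.norm_exp_ofReal_mul_I, abs_of_pos hr]
  have hcmem : ∀ t, c t ∈ closedBall z0 r := by
    intro t
    rw [mem_closedBall, dist_eq_norm, hcn t]
  let q : ℝ → ℂ := fun t => (g (c t) - w) / (r * Complex.exp (t * Complex.I))
  have hr' : (r : ℂ) ≠ 0 := by exact_mod_cast hr.ne'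
  have hden : ∀ t : ℝ, (r * Complex.exp (t * Complex.I) : ℂ) ≠ 0 := fun t =>
    mul_ne_zero hr' (Complex.exp_ne_zero _)
  have hgc : Continuous (fun t => g (c t)) := hg.comp_continuous hc hcmem
  have hq : Continuous q := by
    apply Continuous.div (hgc.sub continuous_const) (by fun_prop) hden
  have hq1 : ∀ t, ‖q t - 1‖ < 1 := by
    intro t
    have e1 : q t - 1 = ((g (c t) - c t) + (z0 - w)) / (r * Complex.exp (t * Complex.I)) := by
      simp only [q]
      rw [div_sub_one (hden t)]
      congr 1
      simp only [c]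
      ring
    have e2 : ‖(r * Complex.exp (t * Complex.I) : ℂ)‖ = r := by
      simp [Complex.norm_exp_ofReal_mul_I, abs_of_pos hr]
    rw [e1, norm_div, e2, div_lt_one hr]
    calc ‖(g (c t) - c t) + (z0 - w)‖ ≤ ‖g (c t) - c t‖ + ‖z0 - w‖ := norm_add_le _ _
      _ < r / 4 + r / 4 := add_lt_add (hsmall _ (hcmem t)) (by rwa [norm_sub_rev])
      _ < r := by linarith
  have hslit : ∀ t, q t ∈ Complex.slitPlane := by
    intro t
    have : q t = 1 + (q t - 1) := by ring
    rw [this]
    exact Complex.mem_slitPlane_of_norm_lt_one (hq1 t)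
  have hlog : Continuous (fun t => Complex.log (q t)) :=
    hq.clog hslit
  let k : ℝ → ℂ := fun t => h (c t) - Complex.log (q t) - t * Complex.I - Complex.log r
  have hk : Continuous k := by
    have := h.continuous
    fun_prop
  have hk1 : ∀ t, Complex.exp (k t) = 1 := by
    intro t
    simp only [k]
    rw [Complex.exp_sub, Complex.exp_sub, Complex.exp_sub, Complex.exp_log hr',
      Complex.exp_log (Complex.slitPlane_ne_zero (hslit t)), hh', hfid _ (hcmem t)]
    have hne : g (c t) - w ≠ 0 := sub_ne_zero.2 (hcon _ (hcmem t))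
    have hE : Complex.exp (t * Complex.I) ≠ 0 := Complex.exp_ne_zero _
    simp only [q]
    field_simp
  have hconst := exp_eq_one_const k hk hk1 0 (2 * Real.pi)
  have hc0 : c (2 * Real.pi) = c 0 := by
    simp [c, Complex.exp_two_pi_mul_I]
  have hq0 : q (2 * Real.pi) = q 0 := by
    simp only [q, hc0]
    congr 2
    simp [Complex.exp_two_pi_mul_I]
  simp only [k, hc0, hq0] at hconst
  have : (2 * Real.pi * Complex.I : ℂ) = 0 := by
    have := hconst
    push_cast at this
    linear_combination this
  exact Complex.two_pi_I_ne_zero this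

end Pool.Agent.Helper88
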