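import Mathlib
import Pool.Agent.Helper88.PlaneDegree

/-!
The planar case of the Lebesgue covering theorem: a closed disc cannot be covered by finitely
many open sets that are small on the disc and such that no three of them meet on the disc.
-/

set_option autoImplicit false

open Set Metric

namespace Pool.Agent.Helper88

/-- A line through two points of the plane is a proper affine subspace. -/
lemma line_ne_top (a b : ℂ) : line[ℝ, a, b] ≠ ⊤ := by
  intro h
  have h1 : Module.finrank ℝ (line[ℝ, a, b]).direction ≤ 1 := by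
    rw [direction_affineSpan]
    have := finrank_vectorSpan_insert_le_set ℝ ({b} : Set ℂ) a
    rwa [vectorSpan_singleton, finrank_bot, zero_add] at this
  rw [h, AffineSubspace.direction_top, finrank_top, Complex.finrank_real_complex] at h1
  omega

/-- Finitely many segments do not cover a disc. -/
lemma exists_not_mem_segments {ι : Type*} [Finite ι] (p : ι → ℂ) (z0 : ℂ) (ρ : ℝ) (hρ : 0 < ρ) :
    ∃ w ∈ ball z0 ρ, ∀ i j, w ∉ segment ℝ (p i) (p j) := by
  by_contra hcon
  push Not at hcon
  have hsub : ball z0 ρ ⊆ ⋃ ij : ι × ι, (line[ℝ, p ij.1, p ij.2] : Set ℂ) := by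
    intro w hw
    obtain ⟨i, j, hij⟩ := hcon w hw
    rw [mem_iUnion]
    refine ⟨(i, j), ?_⟩
    rw [segment_eq_image_lineMap] at hij
    obtain ⟨t, -, rfl⟩ := hij
    exact AffineMap.lineMap_mem_affineSpan_pair t _ _
  have hnull : MeasureTheory.volume (⋃ ij : ι × ι, (line[ℝ, p ij.1, p ij.2] : Set ℂ)) = 0 :=
    MeasureTheory.measure_iUnion_null_iff.2 fun ij =>
      MeasureTheory.Measure.addHaar_affineSubspace _ _ (line_ne_top _ _)
  have h0 : MeasureTheory.volume (ball z0 ρ) = 0 := MeasureTheory.measure_mono_null hsub hnull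
  exact (Metric.measure_ball_pos MeasureTheory.volume z0 hρ).ne' h0

/-- Planar Lebesgue covering theorem. -/
theorem plane_cover {ι : Type*} [Finite ι] (z0 : ℂ) (r : ℝ) (hr : 0 < r) (W : ι → Set ℂ)
    (hW : ∀ i, IsOpen (W i)) (hcov : closedBall z0 r ⊆ ⋃ i, W i)
    (hsmall : ∀ i, ∃ p : ℂ, W i ∩ closedBall z0 r ⊆ ball p (r / 4)) :
    ∃ i j k, i ≠ j ∧ j ≠ k ∧ i ≠ k ∧ (closedBall z0 r ∩ (W i ∩ (W j ∩ W k))).Nonempty := by
  classical
  have := Fintype.ofFinite ι
  choose p hp using hsmall
  obtain ⟨f, hf⟩ := PartitionOfUnity.exists_isSubordinate (isClosed_closedBall (x := z0) (ε := r))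
    W hW hcov
  by_contra hcon
  push Not at hcon
  have hfW : ∀ i x, f i x ≠ 0 → x ∈ W i := fun i x hx =>
    hf i (subset_closure (Function.mem_support.2 hx))
  have hsum : ∀ x ∈ closedBall z0 r, ∑ i, f i x = 1 := by
    intro x hx
    rw [← finsum_eq_sum_of_fintype]
    exact f.sum_eq_one hx
  let g : ℂ → ℂ := fun x => ∑ i, f i x • p i
  have hg : Continuous g := by
    apply continuous_finsetSum
    intro i _
    exact (f i).continuous.smul continuous_const
  have hgs : ∀ z ∈ closedBall z0 r, ‖g z - z‖ < r / 4 := by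
    intro z hz
    have e1 : g z - z = ∑ i, f i z • (p i - z) := by
      simp only [g, smul_sub, Finset.sum_sub_distrib, ← Finset.sum_smul, hsum z hz, one_smul]
    rw [e1]
    obtain ⟨i0, hi0⟩ := f.exists_pos hz
    calc ‖∑ i, f i z • (p i - z)‖ ≤ ∑ i, ‖f i z • (p i - z)‖ := norm_sum_le _ _
      _ < ∑ i, f i z * (r / 4) := by
        apply Finset.sum_lt_sum
        · intro i _
          rw [norm_smul, Real.norm_eq_abs, abs_of_nonneg (f.nonneg i z)]
          by_cases h0 : f i z = 0
          · simp [h0]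
          · apply mul_le_mul_of_nonneg_left _ (f.nonneg i z)
            have := hp i ⟨hfW i z h0, hz⟩
            rw [mem_ball, dist_eq_norm, norm_sub_rev] at this
            exact this.le
        · refine ⟨i0, Finset.mem_univ _, ?_⟩
          rw [norm_smul, Real.norm_eq_abs, abs_of_pos hi0]
          apply mul_lt_mul_of_pos_left _ hi0
          have := hp i0 ⟨hfW i0 z hi0.ne', hz⟩
          rw [mem_ball, dist_eq_norm, norm_sub_rev] at this
          exact this
      _ = r / 4 := by rw [← Finset.sum_mul, hsum z hz, one_mul]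
  obtain ⟨w, hw, hwseg⟩ := exists_not_mem_segments p z0 (r / 4) (by positivity)
  obtain ⟨z, hz, hzw⟩ := small_move_surj z0 r hr g hg.continuousOn hgs w
    (by rwa [mem_ball, dist_eq_norm] at hw)
  -- the support of the partition at `z` has at most two elements
  let S : Finset ι := Finset.univ.filter fun i => f i z ≠ 0
  have hS : S.card ≤ 2 := by
    by_contra hlt
    push Not at hlt
    obtain ⟨i, j, k, hi, hj, hk, hij, hik, hjk⟩ := Finset.two_lt_card_iff.1 hlt
    have := hcon i j k hij hjk hik
    have hmem : z ∈ closedBall z0 r ∩ (W i ∩ (W j ∩ W k)) :=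
      ⟨hz, hfW i z (by simpa [S] using hi), hfW j z (by simpa [S] using hj),
        hfW k z (by simpa [S] using hk)⟩
    rw [this] at hmem
    exact hmem
  have hgS : g z = ∑ i ∈ S, f i z • p i := by
    simp only [g, S]
    rw [Finset.sum_filter_of_ne]
    intro i _ h h0
    apply h
    rw [h0, zero_smul]
  have hsS : ∑ i ∈ S, f i z = 1 := by
    rw [← hsum z hz]
    simp only [S]
    rw [Finset.sum_filter_of_ne]
    intro i _ h
    exact h
  -- hence `g z` lies in a segment
  have hne : S.card ≠ 0 := by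
    intro h0
    rw [Finset.card_eq_zero] at h0
    rw [h0] at hsS
    simp at hsS
  have hcases : S.card = 1 ∨ S.card = 2 := by omega
  rcases hcases with h1 | h2
  · obtain ⟨i, hi⟩ := Finset.card_eq_one.1 h1
    rw [hi] at hgS hsS
    simp only [Finset.sum_singleton] at hgS hsS
    apply hwseg i i
    rw [← hzw, hgS, hsS, one_smul]
    exact left_mem_segment _ _ _
  · obtain ⟨i, j, hij, hi⟩ := Finset.card_eq_two.1 h2
    rw [hi, Finset.sum_pair hij] at hgS hsS
    apply hwseg i j
    rw [← hzw, hgS]
    exact ⟨f i z, f j z, f.nonneg i z, f.nonneg j z, hsS, rfl⟩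

/-- Finite open covers of the plane by sets which are small on a given disc. -/
theorem exists_small_cover (z0 : ℂ) (r : ℝ) (hr : 0 < r) :
    ∃ 𝒰 : Finset (Set ℂ), (∀ U ∈ 𝒰, IsOpen U) ∧ ⋃₀ (↑𝒰 : Set (Set ℂ)) = univ ∧
      ∀ U ∈ 𝒰, ∃ p : ℂ, U ∩ closedBall z0 r ⊆ ball p (r / 4) := by
  classical
  obtain ⟨t, -, htf, ht⟩ := finite_cover_balls_of_compact (isCompact_closedBall z0 r)
    (show 0 < r / 4 by positivity)
  refine ⟨insert (closedBall z0 r)ᶜ (htf.toFinset.image fun p => ball p (r / 4)), ?_, ?_, ?_⟩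
  · intro U hU
    rw [Finset.mem_insert] at hU
    rcases hU with rfl | hU
    · exact isClosed_closedBall.isOpen_compl
    · obtain ⟨p, -, rfl⟩ := Finset.mem_image.1 hU
      exact isOpen_ball
  · rw [eq_univ_iff_forall]
    intro z
    by_cases hz : z ∈ closedBall z0 r
    · have := ht hz
      rw [mem_iUnion₂] at this
      obtain ⟨p, hp, hzp⟩ := this
      refine ⟨ball p (r / 4), ?_, hzp⟩
      rw [Finset.mem_coe, Finset.mem_insert]
      exact Or.inr (Finset.mem_image.2 ⟨p, htf.mem_toFinset.2 hp, rfl⟩)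
    · exact ⟨(closedBall z0 r)ᶜ, by simp, hz⟩
  · intro U hU
    rw [Finset.mem_insert] at hU
    rcases hU with rfl | hU
    · exact ⟨0, by simp⟩
    · obtain ⟨p, -, rfl⟩ := Finset.mem_image.1 hU
      exact ⟨p, inter_subset_left⟩

end Pool.Agent.Helper88
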