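import Mathlib

/-!
A function `φ : ℝ → ℂ` which is continuous at every irrational number (relative to the irrational
numbers) and whose cluster set at every rational number contains a disc.
-/

set_option autoImplicit false

open Set Filter Topology

namespace Pool.Agent.Helper88

/-- The basic oscillating function. -/
noncomputable def psi (t : ℝ) : ℂ := ⟨Real.sin t⁻¹, Real.sin (t⁻¹ ^ 2)⟩

lemma psi_norm_le (t : ℝ) : ‖psi t‖ ≤ 2 := by
  calc ‖psi t‖ ≤ |(psi t).re| + |(psi t).im| := Complex.norm_le_abs_re_add_abs_im _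
    _ ≤ 1 + 1 := add_le_add (Real.abs_sin_le_one _) (Real.abs_sin_le_one _)
    _ = 2 := by norm_num

lemma psi_continuousAt {t : ℝ} (ht : t ≠ 0) : ContinuousAt psi t := by
  have h1 : ContinuousAt (fun t : ℝ => (t⁻¹ : ℝ)) t := continuousAt_inv₀ ht
  have h2 : ContinuousAt (fun t : ℝ => ((Real.sin t⁻¹ : ℝ) : ℂ) +
      ((Real.sin (t⁻¹ ^ 2) : ℝ) : ℂ) * Complex.I) t := by
    have h3 : ContinuousAt (fun t : ℝ => Real.sin t⁻¹) t :=
      Real.continuous_sin.continuousAt.comp h1
    have h4 : ContinuousAt (fun t : ℝ => Real.sin (t⁻¹ ^ 2)) t :=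
      Real.continuous_sin.continuousAt.comp (h1.pow 2)
    exact (Complex.continuous_ofReal.continuousAt.comp h3).add
      ((Complex.continuous_ofReal.continuousAt.comp h4).mul continuousAt_const)
  refine h2.congr (Eventually.of_forall fun s => ?_)
  simp only [psi]
  apply Complex.ext <;> simp [-Complex.ofReal_sin]

/-- Every point of the unit square is a cluster value of `psi` at `0`. -/
lemma psi_cluster (u : ℂ) (h1 : |u.re| ≤ 1) (h2 : |u.im| ≤ 1) (ε : ℝ) (hε : 0 < ε) :
    ∃ t : ℝ, t ≠ 0 ∧ |t| < ε ∧ ‖psi t - u‖ < ε := by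
  have hpi := Real.pi_pos
  set δ : ℝ := ε / 2 with hδ
  have hδ0 : 0 < δ := by positivity
  set a := Real.arcsin u.re with ha
  set b := Real.arcsin u.im with hb
  have hsa : Real.sin a = u.re := Real.sin_arcsin (neg_le_of_abs_le h1) (le_of_abs_le h1)
  have hsb : Real.sin b = u.im := Real.sin_arcsin (neg_le_of_abs_le h2) (le_of_abs_le h2)
  -- a large `s0`
  obtain ⟨k, hk⟩ := exists_nat_gt ((Real.pi / δ + 1 / ε + 1 + |a|) / (2 * Real.pi))
  rw [div_lt_iff₀ (by positivity)] at hk
  set s0 : ℝ := a + k * (2 * Real.pi) with hs0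
  have hs0' : Real.pi / δ + 1 / ε + 1 < s0 := by
    have := neg_abs_le a
    rw [hs0]
    linarith
  have hpd : 0 < Real.pi / δ := by positivity
  have hpe : 0 < 1 / ε := by positivity
  have hs0pos : 0 < s0 := by linarith
  -- the integer `m`
  set m : ℤ := ⌈(s0 ^ 2 - b) / (2 * Real.pi)⌉ with hm
  have hm1 : s0 ^ 2 ≤ b + m * (2 * Real.pi) := by
    have := Int.le_ceil ((s0 ^ 2 - b) / (2 * Real.pi))
    rw [div_le_iff₀ (by positivity)] at this
    linarith
  have hm2 : b + m * (2 * Real.pi) < (s0 + δ) ^ 2 := by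
    have := Int.ceil_lt_add_one ((s0 ^ 2 - b) / (2 * Real.pi))
    rw [← hm, ← sub_lt_iff_lt_add, lt_div_iff₀ (by positivity)] at this
    have h3 : Real.pi < s0 * δ := by
      have : Real.pi / δ < s0 := by linarith
      rwa [div_lt_iff₀ hδ0] at this
    nlinarith [sq_nonneg δ]
  set s : ℝ := Real.sqrt (b + m * (2 * Real.pi)) with hs
  have hs1 : s0 ≤ s := by
    rw [hs]
    exact Real.le_sqrt_of_sq_le hm1
  have hs2 : s < s0 + δ := by
    rw [hs]
    exact (Real.sqrt_lt' (by positivity)).2 hm2
  have hspos : 0 < s := lt_of_lt_of_le hs0pos hs1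
  have hsq : s ^ 2 = b + m * (2 * Real.pi) := by
    rw [hs, Real.sq_sqrt]
    exact le_trans (sq_nonneg _) hm1
  have hsin2 : Real.sin (s ^ 2) = u.im := by
    rw [hsq, Real.sin_add_int_mul_two_pi, hsb]
  have hsin1 : |Real.sin s - u.re| < ε := by
    have e1 : Real.sin s0 = u.re := by
      rw [hs0, Real.sin_add_nat_mul_two_pi, hsa]
    rw [← e1]
    have e2 := Real.lipschitzWith_sin.dist_le_mul s s0
    rw [Real.dist_eq, Real.dist_eq] at e2
    have e3 : |s - s0| < δ := by
      rw [abs_of_nonneg (by linarith)]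
      linarith
    have : |Real.sin s - Real.sin s0| ≤ |s - s0| := by simpa using e2
    linarith
  refine ⟨s⁻¹, inv_ne_zero hspos.ne', ?_, ?_⟩
  · rw [abs_of_pos (inv_pos.2 hspos)]
    apply inv_lt_of_inv_lt₀ hε
    rw [← one_div]
    linarith
  · have e4 : psi s⁻¹ - u = ((Real.sin s - u.re : ℝ) : ℂ) := by
      apply Complex.ext
      · simp [psi, -Complex.ofReal_sin, -Complex.ofReal_sub]
      · simp [psi, hsin2, -Complex.ofReal_sin, -Complex.ofReal_sub]
    rw [e4, Complex.norm_real, Real.norm_eq_abs]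
    exact hsin1

/-- Weights. -/
noncomputable def wt (q : ℚ) : ℝ := (1 / 2) ^ (Encodable.encode q)

lemma wt_pos (q : ℚ) : 0 < wt q := by
  unfold wt
  positivity

lemma wt_summable : Summable fun q : ℚ => wt q * 2 := by
  have : Summable wt := summable_geometric_two_encode
  exact this.mul_right 2

/-- The wild function. -/
noncomputable def phi (c : ℝ) : ℂ := ∑' q : ℚ, wt q • psi (c - q)

/-- The wild function without one term. -/
noncomputable def phiRest (q0 : ℚ) (c : ℝ) : ℂ := ∑' q : ℚ, if q = q0 then 0 else wt q • psi (c - q)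

lemma term_norm_le (q : ℚ) (c : ℝ) : ‖wt q • psi (c - q)‖ ≤ wt q * 2 := by
  rw [norm_smul, Real.norm_eq_abs, abs_of_pos (wt_pos q)]
  exact mul_le_mul_of_nonneg_left (psi_norm_le _) (wt_pos q).le

lemma term_summable (c : ℝ) : Summable fun q : ℚ => wt q • psi (c - q) :=
  Summable.of_norm_bounded wt_summable fun q => term_norm_le q c

lemma phi_eq (q0 : ℚ) (c : ℝ) : phi c = wt q0 • psi (c - q0) + phiRest q0 c :=
  (term_summable c).tsum_eq_add_tsum_ite q0

lemma term_continuousOn (q : ℚ) (s : Set ℝ) (hs : (q : ℝ) ∉ s) :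
    ContinuousOn (fun c : ℝ => wt q • psi (c - q)) s := by
  intro c hc
  have hne : c - q ≠ 0 := by
    intro h
    apply hs
    rw [sub_eq_zero] at h
    rwa [← h]
  have h1 : ContinuousAt (fun c : ℝ => c - (q : ℝ)) c := by fun_prop
  have h2 : ContinuousAt (fun c : ℝ => psi (c - q)) c :=
    ContinuousAt.comp (f := fun c : ℝ => c - (q : ℝ)) (psi_continuousAt hne) h1
  exact (h2.const_smul (wt q)).continuousWithinAt

/-- `phi` is continuous on the irrationals. -/
theorem phi_continuousOn : ContinuousOn phi {c | Irrational c} := by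
  apply continuousOn_tsum (u := fun q => wt q * 2)
  · intro q
    apply term_continuousOn
    intro h
    exact q.not_irrational h
  · exact wt_summable
  · intro q c _
    exact term_norm_le q c

lemma phiRest_continuousOn (q0 : ℚ) :
    ContinuousOn (phiRest q0) {c | Irrational c ∨ c = q0} := by
  apply continuousOn_tsum (u := fun q => wt q * 2)
  · intro q
    by_cases hq : q = q0
    · simp only [hq, if_true]
      exact continuousOn_const
    · simp only [hq, if_false]
      apply term_continuousOn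
      rintro (h | h)
      · exact q.not_irrational h
      · exact hq (by exact_mod_cast h)
  · exact wt_summable
  · intro q c _
    split_ifs
    · simp only [norm_zero]
      exact mul_nonneg (wt_pos q).le zero_le_two
    · exact term_norm_le q c

/-- The cluster set of `phi` at a rational point contains a closed disc. -/
theorem phi_cluster (q0 : ℚ) (y : ℂ) (hy : ‖y - phiRest q0 q0‖ ≤ wt q0) (ε : ℝ) (hε : 0 < ε) :
    ∃ c : ℝ, Irrational c ∧ |c - q0| < ε ∧ ‖phi c - y‖ < ε := by
  have hw := wt_pos q0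
  set u : ℂ := (wt q0)⁻¹ • (y - phiRest q0 q0) with hu
  have hun : ‖u‖ ≤ 1 := by
    rw [hu, norm_smul, Real.norm_eq_abs, abs_of_pos (inv_pos.2 hw), inv_mul_le_iff₀ hw, mul_one]
    exact hy
  have hy' : y = wt q0 • u + phiRest q0 q0 := by
    rw [hu, smul_inv_smul₀ hw.ne']
    ring
  have hure : |u.re| ≤ 1 := (Complex.abs_re_le_norm u).trans hun
  have huim : |u.im| ≤ 1 := (Complex.abs_im_le_norm u).trans hun
  -- continuity of the rest
  have hrest := phiRest_continuousOn q0 (q0 : ℝ) (Or.inr rfl)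
  rw [Metric.continuousWithinAt_iff] at hrest
  obtain ⟨η, hη, hη'⟩ := hrest (ε / 2) (by positivity)
  -- weights are at most one
  have hw1 : wt q0 ≤ 1 := by
    unfold wt
    exact pow_le_one₀ (by norm_num) (by norm_num)
  set κ : ℝ := min (min η ε) ε / 2 with hκ
  have hκ0 : 0 < κ := by
    have : 0 < min (min η ε) ε := lt_min (lt_min hη hε) hε
    rw [hκ]
    linarith
  have hκη : κ ≤ η / 2 := by
    rw [hκ]
    have : min (min η ε) ε ≤ η := (min_le_left _ _).trans (min_le_left _ _)
    linarith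
  have hκε : κ ≤ ε / 2 := by
    rw [hκ]
    have : min (min η ε) ε ≤ ε := min_le_right _ _
    linarith
  obtain ⟨t, ht0, htκ, htu⟩ := psi_cluster u hure huim (κ / 2) (by positivity)
  -- move `t` slightly so that the point is irrational
  have hcont := psi_continuousAt ht0
  rw [Metric.continuousAt_iff] at hcont
  obtain ⟨θ, hθ, hθ'⟩ := hcont (κ / 2) (by positivity)
  have hd : Dense {c : ℝ | Irrational c} := dense_irrational
  obtain ⟨c, hc1, hc2⟩ := hd.exists_dist_lt (q0 + t) (show 0 < min θ (κ / 2) by positivity)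
  have hc1' : Irrational c := hc1
  rw [dist_comm, Real.dist_eq, lt_min_iff] at hc2
  have hcq : |c - q0| < κ := by
    calc |c - q0| = |(c - (q0 + t)) + t| := by congr 1; ring
      _ ≤ |c - (q0 + t)| + |t| := abs_add_le _ _
      _ < κ / 2 + κ / 2 := add_lt_add hc2.2 htκ
      _ = κ := by ring
  refine ⟨c, hc1', by linarith, ?_⟩
  have e1 : ‖psi (c - q0) - psi t‖ < κ / 2 := by
    have := hθ' (x := c - q0) (by
      rw [Real.dist_eq]
      have : c - q0 - t = c - (q0 + t) := by ring
      rw [this]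
      exact hc2.1)
    rwa [dist_eq_norm] at this
  have e2 : ‖phiRest q0 c - phiRest q0 q0‖ < ε / 2 := by
    have := hη' (x := c) (Or.inl hc1') (by
      rw [Real.dist_eq]
      linarith)
    rwa [dist_eq_norm] at this
  have e3 : phi c - y = wt q0 • ((psi (c - q0) - psi t) + (psi t - u)) +
      (phiRest q0 c - phiRest q0 q0) := by
    rw [phi_eq q0 c, hy']
    simp only [smul_add, smul_sub]
    ring
  rw [e3]
  calc ‖wt q0 • ((psi (c - q0) - psi t) + (psi t - u)) + (phiRest q0 c - phiRest q0 q0)‖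
      ≤ ‖wt q0 • ((psi (c - q0) - psi t) + (psi t - u))‖ + ‖phiRest q0 c - phiRest q0 q0‖ :=
        norm_add_le _ _
    _ ≤ 1 * ‖(psi (c - q0) - psi t) + (psi t - u)‖ + ‖phiRest q0 c - phiRest q0 q0‖ := by
        gcongr
        rw [norm_smul, Real.norm_eq_abs, abs_of_pos hw]
        gcongr
    _ ≤ 1 * (‖psi (c - q0) - psi t‖ + ‖psi t - u‖) + ‖phiRest q0 c - phiRest q0 q0‖ := by
        gcongr
        exact norm_add_le _ _
    _ < 1 * (κ / 2 + κ / 2) + ε / 2 := by
        gcongr
    _ ≤ ε := by linarith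

end Pool.Agent.Helper88
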