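import Mathlib
import Pool.Agent.Helper88.PlaneCover
import Pool.Agent.Helper88.CovDim
import Pool.Agent.Helper88.Wild

/-!
The counterexample in `ℝ³`.
-/

set_option autoImplicit false

open Set Filter Topology Metric

namespace Pool.Agent.Helper88

/-- Three-dimensional Euclidean space. -/
abbrev E3 : Type := EuclideanSpace ℝ (Fin 3)

/-- First coordinate. -/
noncomputable def cc (x : E3) : ℝ := x 0

/-- The last two coordinates as a complex number. -/
noncomputable def zz (x : E3) : ℂ := (x 1 : ℂ) + (x 2 : ℂ) * Complex.I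

/-- The point with given coordinates. -/
noncomputable def jj (p : ℝ × ℂ) : E3 := WithLp.toLp 2 ![p.1, p.2.re, p.2.im]

lemma cc_continuous : Continuous cc := by
  unfold cc
  fun_prop

lemma zz_continuous : Continuous zz := by
  unfold zz
  fun_prop

lemma jj_continuous : Continuous jj := by
  unfold jj
  apply (PiLp.continuous_toLp 2 _).comp
  refine continuous_pi fun i => ?_
  fin_cases i
  · simp only [Fin.zero_eta, Matrix.cons_val_zero]
    fun_prop
  · simp only [Fin.mk_one, Matrix.cons_val_one, Matrix.cons_val_zero]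
    exact Complex.continuous_re.comp continuous_snd
  · simp only [Fin.reduceFinMk, Matrix.cons_val]
    exact Complex.continuous_im.comp continuous_snd

@[simp] lemma cc_jj (p : ℝ × ℂ) : cc (jj p) = p.1 := by
  simp [cc, jj]

@[simp] lemma zz_jj (p : ℝ × ℂ) : zz (jj p) = p.2 := by
  simp [zz, jj, Complex.re_add_im]

lemma jj_cc_zz (x : E3) : jj (cc x, zz x) = x := by
  ext i
  fin_cases i <;> simp [cc, zz, jj]

lemma jj_isEmbedding : IsEmbedding jj :=
  Function.LeftInverse.isEmbedding (f := fun x => (cc x, zz x)) (fun p => by simp)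
    (cc_continuous.prodMk zz_continuous) jj_continuous

/-- The points of the plane with two rational coordinates. -/
def DD : Set ℂ := {z | (∃ a : ℚ, z.re = a) ∧ ∃ b : ℚ, z.im = b}

/-- The model space. -/
abbrev XX : Type := {c : ℝ // Irrational c} × {z : ℂ // z ∉ DD}

/-- The embedding of the model space. -/
noncomputable def ee (p : XX) : E3 := jj (p.1, p.2 + phi p.1)

lemma ee_isEmbedding : IsEmbedding ee := by
  have hphi : Continuous (fun c : {c : ℝ // Irrational c} => phi c) :=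
    continuousOn_iff_continuous_domRestrict.1 phi_continuousOn
  -- the shear
  let sh : ({c : ℝ // Irrational c} × ℂ) ≃ₜ ({c : ℝ // Irrational c} × ℂ) :=
    { toFun := fun p => (p.1, p.2 + phi p.1)
      invFun := fun p => (p.1, p.2 - phi p.1)
      left_inv := fun p => by simp
      right_inv := fun p => by simp
      continuous_toFun := continuous_fst.prodMk (continuous_snd.add (hphi.comp continuous_fst))
      continuous_invFun := continuous_fst.prodMk (continuous_snd.sub (hphi.comp continuous_fst)) }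
  have h1 : IsEmbedding (fun p : XX => ((p.1, (p.2 : ℂ)) : {c : ℝ // Irrational c} × ℂ)) :=
    IsEmbedding.id.prodMap IsEmbedding.subtypeVal
  have h2 : IsEmbedding (fun p : {c : ℝ // Irrational c} × ℂ => (((p.1 : ℝ), p.2) : ℝ × ℂ)) :=
    IsEmbedding.subtypeVal.prodMap IsEmbedding.id
  exact jj_isEmbedding.comp (h2.comp (sh.isEmbedding.comp h1))

/-- The counterexample. -/
noncomputable def AA : Set E3 := range ee

lemma mem_AA_of {c : ℝ} (hc : Irrational c) {z : ℂ} (hz : z - phi c ∉ DD) : jj (c, z) ∈ AA :=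
  ⟨(⟨c, hc⟩, ⟨z - phi c, hz⟩), by simp [ee]⟩

/-- First family of basic open sets. -/
def G0 (p : ℚ × ℚ × ℚ × ℚ) : Set XX :=
  {x | |(x.1 : ℝ) - p.1| < p.2.1 ∧ |(x.2 : ℂ).re - p.2.2.1| < p.2.1 ∧
    |(x.2 : ℂ).im - p.2.2.2| < p.2.1}

/-- Second family of basic open sets. -/
def G1 (p : ℚ × ℚ × ℚ × ℚ) : Set XX :=
  {x | |(x.1 : ℝ) - p.1| < p.2.1 ∧ |(x.2 : ℂ).re - p.2.2.1| + |(x.2 : ℂ).im - p.2.2.2| < p.2.1}

lemma ne_of_irrational {c : ℝ} (hc : Irrational c) (a r : ℚ) : |c - a| ≠ r := by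
  intro h
  have : ∃ q : ℚ, c = q := by
    rcases abs_choice (c - a) with h1 | h1
    · exact ⟨a + r, by push_cast; linarith⟩
    · exact ⟨a - r, by push_cast; linarith⟩
  obtain ⟨q, hq⟩ := this
  exact q.not_irrational (hq ▸ hc)

lemma diamond_ne {x y : ℝ} (hx : ∃ q : ℚ, x = q) (hy : ¬ ∃ q : ℚ, y = q) (u v r : ℚ) :
    |x - u| + |y - v| ≠ r := by
  obtain ⟨q, rfl⟩ := hx
  intro h
  apply hy
  rcases abs_choice (y - v) with h1 | h1
  · exact ⟨v + (r - |q - u|), by push_cast; linarith⟩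
  · exact ⟨v - (r - |q - u|), by push_cast; linarith⟩

lemma G0_open (p : ℚ × ℚ × ℚ × ℚ) : IsOpen (G0 p) := by
  have h1 : Continuous fun x : XX => |(x.1 : ℝ) - p.1| := by fun_prop
  have h2 : Continuous fun x : XX => |(x.2 : ℂ).re - p.2.2.1| :=
    ((Complex.continuous_re.comp (continuous_subtype_val.comp continuous_snd)).sub
      continuous_const).abs
  have h3 : Continuous fun x : XX => |(x.2 : ℂ).im - p.2.2.2| :=
    ((Complex.continuous_im.comp (continuous_subtype_val.comp continuous_snd)).sub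
      continuous_const).abs
  exact (isOpen_lt h1 continuous_const).inter
    ((isOpen_lt h2 continuous_const).inter (isOpen_lt h3 continuous_const))

lemma G1_open (p : ℚ × ℚ × ℚ × ℚ) : IsOpen (G1 p) := by
  have h1 : Continuous fun x : XX => |(x.1 : ℝ) - p.1| := by fun_prop
  have h2 : Continuous fun x : XX => |(x.2 : ℂ).re - p.2.2.1| :=
    ((Complex.continuous_re.comp (continuous_subtype_val.comp continuous_snd)).sub
      continuous_const).abs
  have h3 : Continuous fun x : XX => |(x.2 : ℂ).im - p.2.2.2| :=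
    ((Complex.continuous_im.comp (continuous_subtype_val.comp continuous_snd)).sub
      continuous_const).abs
  exact (isOpen_lt h1 continuous_const).inter (isOpen_lt (h2.add h3) continuous_const)

lemma G0_closure (p : ℚ × ℚ × ℚ × ℚ) : closure (G0 p) ⊆
    {x | |(x.1 : ℝ) - p.1| ≤ p.2.1 ∧ |(x.2 : ℂ).re - p.2.2.1| ≤ p.2.1 ∧
    |(x.2 : ℂ).im - p.2.2.2| ≤ p.2.1} := by
  have h1 : Continuous fun x : XX => |(x.1 : ℝ) - p.1| := by fun_prop
  have h2 : Continuous fun x : XX => |(x.2 : ℂ).re - p.2.2.1| :=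
    ((Complex.continuous_re.comp (continuous_subtype_val.comp continuous_snd)).sub
      continuous_const).abs
  have h3 : Continuous fun x : XX => |(x.2 : ℂ).im - p.2.2.2| :=
    ((Complex.continuous_im.comp (continuous_subtype_val.comp continuous_snd)).sub
      continuous_const).abs
  apply closure_minimal
  · rintro x ⟨hx1, hx2, hx3⟩
    exact ⟨hx1.le, hx2.le, hx3.le⟩
  · exact (isClosed_le h1 continuous_const).inter
      ((isClosed_le h2 continuous_const).inter (isClosed_le h3 continuous_const))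

lemma G1_closure (p : ℚ × ℚ × ℚ × ℚ) : closure (G1 p) ⊆
    {x | |(x.1 : ℝ) - p.1| ≤ p.2.1 ∧
      |(x.2 : ℂ).re - p.2.2.1| + |(x.2 : ℂ).im - p.2.2.2| ≤ p.2.1} := by
  have h1 : Continuous fun x : XX => |(x.1 : ℝ) - p.1| := by fun_prop
  have h2 : Continuous fun x : XX => |(x.2 : ℂ).re - p.2.2.1| :=
    ((Complex.continuous_re.comp (continuous_subtype_val.comp continuous_snd)).sub
      continuous_const).abs
  have h3 : Continuous fun x : XX => |(x.2 : ℂ).im - p.2.2.2| :=
    ((Complex.continuous_im.comp (continuous_subtype_val.comp continuous_snd)).sub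
      continuous_const).abs
  apply closure_minimal
  · rintro x ⟨hx1, hx2⟩
    exact ⟨hx1.le, hx2.le⟩
  · exact (isClosed_le h1 continuous_const).inter (isClosed_le (h2.add h3) continuous_const)

lemma G1_subset_G0 (p : ℚ × ℚ × ℚ × ℚ) : G1 p ⊆ G0 p := by
  rintro x ⟨h1, h2⟩
  have := abs_nonneg ((x.2 : ℂ).re - p.2.2.1)
  have := abs_nonneg ((x.2 : ℂ).im - p.2.2.2)
  exact ⟨h1, by linarith, by linarith⟩

/-- The sets `G1` form a base (and hence so do the sets `G0`). -/
lemma G_base (x : XX) (U : Set XX) (hU : IsOpen U) (hx : x ∈ U) :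
    ∃ p, x ∈ G1 p ∧ G0 p ⊆ U := by
  obtain ⟨ε, hε, hball⟩ := Metric.isOpen_iff.1 hU x hx
  obtain ⟨r, hr0, hr⟩ := exists_rat_btwn (show (0 : ℝ) < ε / 4 by positivity)
  obtain ⟨a, ha1, ha2⟩ := exists_rat_btwn (show (x.1 : ℝ) - r < x.1 + r by linarith)
  obtain ⟨u, hu1, hu2⟩ := exists_rat_btwn
    (show (x.2 : ℂ).re - r / 2 < (x.2 : ℂ).re + r / 2 by linarith)
  obtain ⟨v, hv1, hv2⟩ := exists_rat_btwn
    (show (x.2 : ℂ).im - r / 2 < (x.2 : ℂ).im + r / 2 by linarith)
  have h1 : |(x.1 : ℝ) - a| < r := by rw [abs_lt]; constructor <;> linarith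
  have h2 : |(x.2 : ℂ).re - u| < r / 2 := by rw [abs_lt]; constructor <;> linarith
  have h3 : |(x.2 : ℂ).im - v| < r / 2 := by rw [abs_lt]; constructor <;> linarith
  refine ⟨(a, r, u, v), ⟨h1, ?_⟩, ?_⟩
  · show |(x.2 : ℂ).re - u| + |(x.2 : ℂ).im - v| < r
    linarith
  · rintro y ⟨hy1, hy2, hy3⟩
    simp only at hy1 hy2 hy3
    apply hball
    rw [mem_ball, Prod.dist_eq, max_lt_iff]
    constructor
    · rw [Subtype.dist_eq, Real.dist_eq]
      calc |(y.1 : ℝ) - x.1| = |((y.1 : ℝ) - a) - (x.1 - a)| := by congr 1; ring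
        _ ≤ |(y.1 : ℝ) - a| + |(x.1 : ℝ) - a| := abs_sub _ _
        _ < ε := by linarith
    · rw [Subtype.dist_eq, Complex.dist_eq]
      calc ‖(y.2 : ℂ) - x.2‖ ≤ |((y.2 : ℂ) - x.2).re| + |((y.2 : ℂ) - x.2).im| :=
            Complex.norm_le_abs_re_add_abs_im _
        _ = |((y.2 : ℂ).re - u) - ((x.2 : ℂ).re - u)| +
            |((y.2 : ℂ).im - v) - ((x.2 : ℂ).im - v)| := by
            rw [Complex.sub_re, Complex.sub_im]
            congr 2 <;> ring
        _ ≤ (|(y.2 : ℂ).re - u| + |(x.2 : ℂ).re - u|) +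
            (|(y.2 : ℂ).im - v| + |(x.2 : ℂ).im - v|) :=
            add_le_add (abs_sub _ _) (abs_sub _ _)
        _ < ε := by linarith

/-- The counterexample has covering dimension at most one. -/
theorem AA_dimLE_one : DimLE AA 1 := by
  apply DimLE.range_of_isEmbedding ee_isEmbedding
  obtain ⟨f, hf⟩ := exists_surjective_nat (ℚ × ℚ × ℚ × ℚ)
  refine dimLE_one_of_two
    (fun b => if b then
      {x : XX | ((∃ q : ℚ, (x.2 : ℂ).re = q) ∧ ¬ ∃ q : ℚ, (x.2 : ℂ).im = q) ∨
        (¬ (∃ q : ℚ, (x.2 : ℂ).re = q) ∧ ∃ q : ℚ, (x.2 : ℂ).im = q)}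
      else {x : XX | (¬ ∃ q : ℚ, (x.2 : ℂ).re = q) ∧ ¬ ∃ q : ℚ, (x.2 : ℂ).im = q}) ?_
    (fun b n => if b then G1 (f n) else G0 (f n)) ?_ ?_ ?_
  · intro x
    have hx := x.2.2
    by_cases h1 : ∃ q : ℚ, (x.2 : ℂ).re = q
    · have h2 : ¬ ∃ q : ℚ, (x.2 : ℂ).im = q := fun h2 => hx ⟨h1, h2⟩
      exact ⟨true, Or.inl ⟨h1, h2⟩⟩
    · by_cases h2 : ∃ q : ℚ, (x.2 : ℂ).im = q
      · exact ⟨true, Or.inr ⟨h1, h2⟩⟩
      · exact ⟨false, ⟨h1, h2⟩⟩
  · intro b n
    cases b
    · exact G0_open _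
    · exact G1_open _
  · intro b n
    cases b
    · simp only [Bool.false_eq_true, if_false]
      rintro x ⟨hx, hx1, hx2⟩
      obtain ⟨h1, h2, h3⟩ := G0_closure _ hx
      have h2' : Irrational (x.2 : ℂ).re := by
        rintro ⟨q, hq⟩
        exact hx1 ⟨q, hq.symm⟩
      have h3' : Irrational (x.2 : ℂ).im := by
        rintro ⟨q, hq⟩
        exact hx2 ⟨q, hq.symm⟩
      exact ⟨lt_of_le_of_ne h1 (ne_of_irrational x.1.2 _ _),
        lt_of_le_of_ne h2 (ne_of_irrational h2' _ _), lt_of_le_of_ne h3 (ne_of_irrational h3' _ _)⟩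
    · simp only [if_true]
      rintro x ⟨hx, hx1⟩
      obtain ⟨h1, h2⟩ := G1_closure _ hx
      refine ⟨lt_of_le_of_ne h1 (ne_of_irrational x.1.2 _ _), lt_of_le_of_ne h2 ?_⟩
      rcases hx1 with ⟨h3, h4⟩ | ⟨h3, h4⟩
      · exact diamond_ne h3 h4 _ _ _
      · rw [add_comm]
        exact diamond_ne h4 h3 _ _ _
  · intro b x _ U hU hxU
    obtain ⟨p, hp1, hp2⟩ := G_base x U hU hxU
    obtain ⟨n, rfl⟩ := hf p
    refine ⟨n, ?_⟩
    cases b
    · exact ⟨G1_subset_G0 _ hp1, hp2⟩
    · exact ⟨hp1, (G1_subset_G0 _).trans hp2⟩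

/-- The counterexample does not have covering dimension at most zero. -/
theorem AA_not_dimLE_zero : ¬ DimLE AA 0 := by
  have hc : Irrational (Real.sqrt 2) := irrational_sqrt_two
  let l : ℝ → E3 := fun y => jj (Real.sqrt 2, (⟨Real.sqrt 2, y⟩ : ℂ) + phi (Real.sqrt 2))
  have hl : Continuous l := by
    apply jj_continuous.comp
    refine continuous_const.prodMk (Continuous.add ?_ continuous_const)
    have : (fun y : ℝ => (⟨Real.sqrt 2, y⟩ : ℂ)) =
        fun y : ℝ => ((Real.sqrt 2 : ℝ) : ℂ) + (y : ℂ) * Complex.I := by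
      funext y
      apply Complex.ext <;> simp
    have h2 : Continuous (fun y : ℝ => (⟨Real.sqrt 2, y⟩ : ℂ)) := by
      rw [this]
      fun_prop
    exact h2
  apply not_dimLE_zero AA (range l) ?_ (isPreconnected_range hl) (l 0) (l 1) ⟨0, rfl⟩ ⟨1, rfl⟩
  · intro h
    have h1 := congrArg zz h
    simp only [l, zz_jj, add_left_inj] at h1
    have := congrArg Complex.im h1
    simp at this
  · rintro _ ⟨y, rfl⟩
    apply mem_AA_of hc
    rintro ⟨⟨a, ha⟩, -⟩
    simp at ha
    exact a.not_irrational (ha ▸ hc)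

theorem AA_not_dimLE_neg_one : ¬ DimLE AA (-1) := by
  have hc : Irrational (Real.sqrt 2) := irrational_sqrt_two
  apply not_dimLE_neg_one AA (jj (Real.sqrt 2, (⟨Real.sqrt 2, 0⟩ : ℂ) + phi (Real.sqrt 2)))
  apply mem_AA_of hc
  rintro ⟨⟨a, ha⟩, -⟩
  simp at ha
  exact a.not_irrational (ha ▸ hc)

/-- A set of dimension at most one misses a closed set which meets every plane `{c} × ℂ`. -/
theorem exists_closed_of_dimLE_one (B : Set E3) (hB : DimLE B 1) :
    ∃ Z : Set E3, IsClosed Z ∧ Disjoint Z B ∧ ∀ c : ℝ, ∃ z : ℂ, jj (c, z) ∈ Z := by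
  classical
  obtain ⟨𝒰₀, h1, h2, h3⟩ := exists_small_cover 0 1 one_pos
  obtain ⟨𝒱, hV, hcov, href, hord⟩ := hB (𝒰₀.image fun U => zz ⁻¹' U)
    (by
      intro U hU
      obtain ⟨U0, hU0, rfl⟩ := Finset.mem_image.1 hU
      exact (h1 U0 hU0).preimage zz_continuous)
    (by
      intro x _
      have : zz x ∈ ⋃₀ (↑𝒰₀ : Set (Set ℂ)) := by
        rw [h2]
        exact mem_univ _
      obtain ⟨U, hU, hxU⟩ := this
      refine ⟨zz ⁻¹' U, ?_, hxU⟩
      rw [Finset.mem_coe]
      exact Finset.mem_image.2 ⟨U, hU, rfl⟩)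
  have href' : ∀ V ∈ 𝒱, ∃ U ∈ 𝒰₀, V ∩ B ⊆ zz ⁻¹' U := by
    intro V hV'
    obtain ⟨U, hU, hVU⟩ := href V hV'
    obtain ⟨U0, hU0, rfl⟩ := Finset.mem_image.1 hU
    exact ⟨U0, hU0, hVU⟩
  choose! u hu1 hu2 using href'
  let E : Set E3 → Set E3 := fun V => {x | infEDist x B < infEDist x (B \ V)} ∩ zz ⁻¹' (u V)
  have hEo : ∀ V ∈ 𝒱, IsOpen (E V) := fun V hV' =>
    (isOpen_lt continuous_infEDist continuous_infEDist).inter
      ((h1 _ (hu1 V hV')).preimage zz_continuous)
  refine ⟨(⋃ V ∈ 𝒱, E V)ᶜ, (isOpen_biUnion hEo).isClosed_compl, ?_, ?_⟩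
  · rw [disjoint_compl_left_iff_subset]
    intro x hx
    obtain ⟨V, hV', hxV⟩ := hcov hx
    rw [Finset.mem_coe] at hV'
    rw [mem_iUnion₂]
    refine ⟨V, hV', ?_, hu2 V hV' ⟨hxV, hx⟩⟩
    show infEDist x B < infEDist x (B \ V)
    rw [infEDist_zero_of_mem hx, pos_iff_ne_zero]
    intro h0
    rw [← mem_closure_iff_infEDist_zero] at h0
    have : x ∈ Vᶜ := by
      have h4 : closure (B \ V) ⊆ Vᶜ :=
        closure_minimal (fun y hy => hy.2) (hV V hV').isClosed_compl
      exact h4 h0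
    exact this hxV
  · intro c
    by_contra hcon
    push Not at hcon
    have hcover : closedBall (0 : ℂ) 1 ⊆ ⋃ V : {V // V ∈ 𝒱}, {z : ℂ | jj (c, z) ∈ E V} := by
      intro z _
      have := hcon z
      rw [mem_compl_iff, not_not, mem_iUnion₂] at this
      obtain ⟨V, hV', hz⟩ := this
      rw [mem_iUnion]
      exact ⟨⟨V, hV'⟩, hz⟩
    obtain ⟨V1, V2, V3, h12, h23, h13, z, hz, hz1, hz2, hz3⟩ :=
      plane_cover (0 : ℂ) 1 one_pos (fun V : {V // V ∈ 𝒱} => {z : ℂ | jj (c, z) ∈ E V})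
      (fun V => (hEo V V.2).preimage (jj_continuous.comp (continuous_const.prodMk continuous_id)))
      hcover
      (by
        intro V
        obtain ⟨p, hp⟩ := h3 (u V) (hu1 V V.2)
        refine ⟨p, ?_⟩
        rintro z ⟨hz1, hz2⟩
        apply hp
        refine ⟨?_, hz2⟩
        have := hz1.2
        simpa using this)
    obtain ⟨y, hyB, hy1, hy2, hy3⟩ := infEDist_triple B V1 V2 V3 (jj (c, z)) hz1.1 hz2.1 hz3.1
    have h12' : (V1 : Set E3) ≠ V2 := fun h => h12 (Subtype.ext h)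
    have h23' : (V2 : Set E3) ≠ V3 := fun h => h23 (Subtype.ext h)
    have h13' : (V1 : Set E3) ≠ V3 := fun h => h13 (Subtype.ext h)
    have := hord {(V1 : Set E3), (V2 : Set E3), (V3 : Set E3)} (by
      intro T hT
      simp only [Finset.mem_insert, Finset.mem_singleton] at hT
      rcases hT with rfl | rfl | rfl
      · exact V1.2
      · exact V2.2
      · exact V3.2) (by
      rw [Finset.card_insert_of_notMem, Finset.card_pair h23']
      · norm_num
      · simp [h12', h13'])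
    rw [eq_empty_iff_forall_notMem] at this
    apply this y
    refine ⟨hyB, ?_⟩
    rw [mem_sInter]
    intro T hT
    simp only [Finset.coe_insert, Finset.coe_singleton, mem_insert_iff, mem_singleton_iff] at hT
    rcases hT with rfl | rfl | rfl
    · exact hy1
    · exact hy2
    · exact hy3

/-- A set containing a closed disc of a plane `{q} × ℂ` does not have dimension at most one. -/
theorem not_dimLE_one_of_disc (S : Set E3) (q : ℝ) (z1 : ℂ) (ρ : ℝ) (hρ : 0 < ρ)
    (hS : ∀ z ∈ closedBall z1 ρ, jj (q, z) ∈ S) : ¬ DimLE S 1 := by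
  classical
  intro hB
  obtain ⟨𝒰₀, h1, h2, h3⟩ := exists_small_cover z1 ρ hρ
  obtain ⟨𝒱, hV, hcov, href, hord⟩ := hB (𝒰₀.image fun U => zz ⁻¹' U)
    (by
      intro U hU
      obtain ⟨U0, hU0, rfl⟩ := Finset.mem_image.1 hU
      exact (h1 U0 hU0).preimage zz_continuous)
    (by
      intro x _
      have : zz x ∈ ⋃₀ (↑𝒰₀ : Set (Set ℂ)) := by
        rw [h2]
        exact mem_univ _
      obtain ⟨U, hU, hxU⟩ := this
      refine ⟨zz ⁻¹' U, ?_, hxU⟩
      rw [Finset.mem_coe]
      exact Finset.mem_image.2 ⟨U, hU, rfl⟩)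
  obtain ⟨V1, V2, V3, h12, h23, h13, z, hz, hz1, hz2, hz3⟩ :=
    plane_cover z1 ρ hρ (fun V : {V // V ∈ 𝒱} => {z : ℂ | jj (q, z) ∈ (V : Set E3)})
    (fun V => (hV V V.2).preimage (jj_continuous.comp (continuous_const.prodMk continuous_id)))
    (by
      intro z hz
      obtain ⟨V, hV', hzV⟩ := hcov (hS z hz)
      rw [mem_iUnion]
      exact ⟨⟨V, hV'⟩, hzV⟩)
    (by
      intro V
      obtain ⟨U, hU, hVU⟩ := href V V.2
      obtain ⟨U0, hU0, rfl⟩ := Finset.mem_image.1 hU
      obtain ⟨p, hp⟩ := h3 U0 hU0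
      refine ⟨p, ?_⟩
      rintro z ⟨hz1, hz2⟩
      apply hp
      refine ⟨?_, hz2⟩
      have := hVU ⟨hz1, hS z hz2⟩
      simpa using this)
  have h12' : (V1 : Set E3) ≠ V2 := fun h => h12 (Subtype.ext h)
  have h23' : (V2 : Set E3) ≠ V3 := fun h => h23 (Subtype.ext h)
  have h13' : (V1 : Set E3) ≠ V3 := fun h => h13 (Subtype.ext h)
  have := hord {(V1 : Set E3), (V2 : Set E3), (V3 : Set E3)} (by
    intro T hT
    simp only [Finset.mem_insert, Finset.mem_singleton] at hT
    rcases hT with rfl | rfl | rfl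
    · exact V1.2
    · exact V2.2
    · exact V3.2) (by
    rw [Finset.card_insert_of_notMem, Finset.card_pair h23']
    · norm_num
    · simp [h12', h13'])
  rw [eq_empty_iff_forall_notMem] at this
  apply this (jj (q, z))
  refine ⟨hS z hz, ?_⟩
  rw [mem_sInter]
  intro T hT
  simp only [Finset.coe_insert, Finset.coe_singleton, mem_insert_iff, mem_singleton_iff] at hT
  rcases hT with rfl | rfl | rfl
  · exact hz1
  · exact hz2
  · exact hz3

/-- The key property of the counterexample. -/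
theorem key (B : Set E3) (hAB : AA ⊆ B) (hB : DimLE B 1) : ¬ DimLE Bᶜ 1 := by
  obtain ⟨Z, hZc, hZB, hZ⟩ := exists_closed_of_dimLE_one B hB
  let d : ℚ × ℚ → ℂ := fun p => ⟨p.1, p.2⟩
  let M : ℚ × ℚ → Set ℝ := fun p => {c | Irrational c ∧ jj (c, phi c + d p) ∈ Z}
  -- every irrational number belongs to some `M p`
  have hM : ∀ c : ℝ, Irrational c → ∃ p, c ∈ M p := by
    intro c hc
    obtain ⟨z, hz⟩ := hZ c
    have hzA : jj (c, z) ∉ AA := fun h => Set.disjoint_left.1 hZB hz (hAB h)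
    have hzD : z - phi c ∈ DD := by
      by_contra hcon
      exact hzA (mem_AA_of hc hcon)
    obtain ⟨⟨a, ha⟩, ⟨b, hb⟩⟩ := hzD
    refine ⟨(a, b), hc, ?_⟩
    have : phi c + d (a, b) = z := by
      have h1 : z - phi c = d (a, b) := Complex.ext ha hb
      rw [← h1]
      ring
    rw [this]
    exact hz
  -- the sets `M p` are relatively closed in the irrationals
  have hMc : ∀ p, ∀ c : ℝ, Irrational c → c ∈ closure (M p) → jj (c, phi c + d p) ∈ Z := by
    intro p c hc hcM
    have hcont : ContinuousWithinAt (fun c => jj (c, phi c + d p)) (M p) c := by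
      have h1 : ContinuousWithinAt phi (M p) c :=
        (phi_continuousOn c hc).mono fun x hx => hx.1
      exact jj_continuous.continuousAt.comp_continuousWithinAt
        (continuousWithinAt_id.prodMk (h1.add continuousWithinAt_const))
    have h2 := hcont.mem_closure_image hcM
    have h3 : closure ((fun c => jj (c, phi c + d p)) '' M p) ⊆ Z := by
      apply closure_minimal _ hZc
      rintro _ ⟨x, hx, rfl⟩
      exact hx.2
    exact h3 h2
  -- Baire category
  have hbaire : ∃ p, (interior (closure (M p))).Nonempty := by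
    have hun : (⋃ i : (ℚ × ℚ) ⊕ ℚ, Sum.elim (fun p => closure (M p)) (fun q : ℚ => {(q : ℝ)}) i) =
        (univ : Set ℝ) := by
      rw [eq_univ_iff_forall]
      intro c
      rw [mem_iUnion]
      by_cases hc : Irrational c
      · obtain ⟨p, hp⟩ := hM c hc
        exact ⟨Sum.inl p, subset_closure hp⟩
      · obtain ⟨q, hq⟩ := not_not.1 hc
        exact ⟨Sum.inr q, hq.symm⟩
    obtain ⟨i, hi⟩ := nonempty_interior_of_iUnion_of_closed (f := fun i : (ℚ × ℚ) ⊕ ℚ =>
      Sum.elim (fun p => closure (M p)) (fun q : ℚ => {(q : ℝ)}) i) (by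
        rintro (p | q)
        · exact isClosed_closure
        · exact isClosed_singleton) hun
    rcases i with p | q
    · exact ⟨p, hi⟩
    · simp at hi
  obtain ⟨p, hp⟩ := hbaire
  -- a rational point in the interior
  obtain ⟨q, hq⟩ : ∃ q : ℚ, (q : ℝ) ∈ interior (closure (M p)) := by
    obtain ⟨x, hx, q, rfl⟩ := Rat.denseRange_cast (𝕜 := ℝ) |>.inter_open_nonempty _
      isOpen_interior hp
    exact ⟨q, hx⟩
  -- the cluster values
  have hclus : ∀ y : ℂ, ‖y - phiRest q q‖ ≤ wt q → jj (q, y + d p) ∈ Z := by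
    intro y hy
    have hseq : ∀ n : ℕ, ∃ c : ℝ, Irrational c ∧ |c - q| < 1 / ((n : ℝ) + 1) ∧
        ‖phi c - y‖ < 1 / ((n : ℝ) + 1) := fun n =>
      phi_cluster q y hy _ Nat.one_div_pos_of_nat
    choose c hc1 hc2 hc3 using hseq
    have hc : Tendsto c atTop (𝓝 (q : ℝ)) := by
      rw [tendsto_iff_dist_tendsto_zero]
      apply squeeze_zero (fun n => dist_nonneg) (fun n => ?_) tendsto_one_div_add_atTop_nhds_zero_nat
      rw [Real.dist_eq]
      exact (hc2 n).le
    have hphi : Tendsto (fun n => phi (c n)) atTop (𝓝 y) := by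
      rw [tendsto_iff_dist_tendsto_zero]
      apply squeeze_zero (fun n => dist_nonneg) (fun n => ?_) tendsto_one_div_add_atTop_nhds_zero_nat
      rw [dist_eq_norm]
      exact (hc3 n).le
    have hlim : Tendsto (fun n => jj (c n, phi (c n) + d p)) atTop (𝓝 (jj (q, y + d p))) :=
      (jj_continuous.tendsto _).comp (hc.prodMk_nhds (hphi.add tendsto_const_nhds))
    apply hZc.mem_of_tendsto hlim
    have hev : ∀ᶠ n in atTop, c n ∈ interior (closure (M p)) :=
      hc (isOpen_interior.mem_nhds hq)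
    filter_upwards [hev] with n hn
    exact hMc p (c n) (hc1 n) (interior_subset hn)
  apply not_dimLE_one_of_disc Bᶜ q (phiRest q q + d p) (wt q) (wt_pos q)
  intro z hz
  rw [mem_closedBall, dist_eq_norm] at hz
  have h1 := hclus (z - d p) (by
    rw [show z - d p - phiRest q q = z - (phiRest q q + d p) by ring]
    exact hz)
  rw [sub_add_cancel] at h1
  exact fun h => Set.disjoint_left.1 hZB h1 h

end Pool.Agent.Helper88
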